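import Pool.Agent.Helper63.GB2.Defs
import Pool.Agent.Helper75.GB.Main

/-!
# MP_02f2ca_gt, dimension two : module B9, the main level in the plane
-/

open Set MeasureTheory Filter Topology

namespace GB

/-- Averaging over the offsets of a window of length `g`. -/
theorem exists_offset {ι : Type*} (C : Finset ι) (wt : ι → ℝ) (hwt : ∀ γ ∈ C, 0 ≤ wt γ)
    (a : ι → ℤ) (P g : ℕ) (hP : 1 ≤ P) (hg : g ≤ P) (ha : ∀ γ ∈ C, |a γ| ≤ 2 * P) :
    ∃ a₀ : ℤ, |a₀| ≤ 3 * P ∧ (g : ℝ) / (7 * P) * ∑ γ ∈ C, wt γ ≤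
      ∑ γ ∈ C, if 0 ≤ a γ - a₀ ∧ a γ - a₀ ≤ g then wt γ else 0 := by
  classical
  set W := ∑ γ ∈ C, wt γ with hW
  have hW0 : 0 ≤ W := Finset.sum_nonneg hwt
  have hP' : (1 : ℝ) ≤ P := by exact_mod_cast hP
  have hg0 : (0 : ℝ) ≤ g := Nat.cast_nonneg g
  have key : ∑ _a₀ ∈ Finset.Icc (-(3 * (P : ℤ))) (3 * (P : ℤ)), (g : ℝ) / (7 * P) * W ≤
      ∑ a₀ ∈ Finset.Icc (-(3 * (P : ℤ))) (3 * (P : ℤ)),
        ∑ γ ∈ C, if 0 ≤ a γ - a₀ ∧ a γ - a₀ ≤ g then wt γ else 0 := by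
    rw [Finset.sum_const, Int.card_Icc, Finset.sum_comm]
    have h1 : ((3 * (P : ℤ) + 1 - -(3 * (P : ℤ))).toNat) = 6 * P + 1 := by omega
    rw [h1, nsmul_eq_mul]
    have h2 : ((6 * P + 1 : ℕ) : ℝ) * ((g : ℝ) / (7 * P) * W) ≤ ((g : ℝ) + 1) * W := by
      have h3 : ((6 * P + 1 : ℕ) : ℝ) * ((g : ℝ) / (7 * P)) ≤ g := by
        push_cast
        rw [mul_div_assoc', div_le_iff₀ (by positivity)]
        nlinarith
      calc ((6 * P + 1 : ℕ) : ℝ) * ((g : ℝ) / (7 * P) * W)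
          = ((6 * P + 1 : ℕ) : ℝ) * ((g : ℝ) / (7 * P)) * W := by ring
        _ ≤ g * W := mul_le_mul_of_nonneg_right h3 hW0
        _ ≤ ((g : ℝ) + 1) * W := by nlinarith
    refine h2.trans ?_
    rw [hW, Finset.mul_sum]
    refine Finset.sum_le_sum fun γ hγ => ?_
    rw [← Finset.sum_filter, Finset.sum_const, nsmul_eq_mul]
    refine mul_le_mul_of_nonneg_right ?_ (hwt γ hγ)
    have h3 : Finset.Icc (a γ - g) (a γ) ⊆
        Finset.filter (fun a₀ => 0 ≤ a γ - a₀ ∧ a γ - a₀ ≤ g)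
          (Finset.Icc (-(3 * (P : ℤ))) (3 * (P : ℤ))) := by
      intro b hb
      rw [Finset.mem_Icc] at hb
      have h4 := abs_le.1 (ha γ hγ)
      have h5 : (g : ℤ) ≤ P := by exact_mod_cast hg
      rw [Finset.mem_filter, Finset.mem_Icc]
      refine ⟨⟨?_, ?_⟩, ?_, ?_⟩ <;> omega
    have h4 := Finset.card_le_card h3
    rw [Int.card_Icc] at h4
    have h5 : (a γ + 1 - (a γ - g)).toNat = g + 1 := by omega
    rw [h5] at h4
    exact_mod_cast h4
  obtain ⟨a₀, ha₀, h⟩ := Finset.exists_le_of_sum_le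
    ⟨0, by rw [Finset.mem_Icc]; constructor <;> omega⟩ key
  refine ⟨a₀, ?_, h⟩
  rw [Finset.mem_Icc] at ha₀
  exact abs_le.2 ha₀

theorem main_level_plane {a₁ a₂ : ℝ} (hα : QIndep a₁ a₂) {thr2 : ℝ → ℕ} {κ : ℕ → ℕ → ℕ}
    {e : ℕ → ℝ} {μ₀ : ℝ} {i : ℕ} {ε : ℝ} {θ : ℕ} {X : Lev}
    (hX : Good a₁ a₂ thr2 κ e μ₀ i ε θ X)
    (he : e X.K ≤ 1 / (64 * (X.K : ℝ) ^ 2 * 4 ^ X.K)) (hK5 : 5 * X.P ≤ X.K)
    (hwK : 1 ≤ X.w * X.K)
    {ι : Type*} (I : Finset ι) (hI : I.card ≤ X.K) (q : ι → ℂ) (p wt : ι → ℝ) (τ : ℂ)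
    (hτ : ‖τ‖ = 1) (hq : ∀ γ ∈ I, ‖q γ‖ = 1) (hqτ : ∀ γ ∈ I, 1 / (X.K : ℝ) ≤ |(q γ * τ).re|)
    (hinj : ∀ γ ∈ I, ∀ γ' ∈ I, (q γ * τ).re = (q γ' * τ).re → q γ = q γ')
    (hcl : ∀ γ ∈ I, ∀ γ' ∈ I, q γ = q γ' → ∀ (v : ℤ × ℤ) (u : ℤ), p γ - p γ' = Lf a₁ a₂ v + u →
      |v.1| ≤ 2 * X.P ∧ |v.2| ≤ X.K)
    (hwt : ∀ γ ∈ I, 0 ≤ wt γ)
    (hsm : ∀ γ ∈ I, wt γ ≠ 0 → ∃ u : ℤ, p γ + u ∈ Icc (23 / 4 * X.w) (25 / 4 * X.w)) :
    ∃ U : Set ℂ, IsOpen U ∧ U.Nonempty ∧ U ⊆ Metric.ball 0 (X.w / 4) ∧ ∀ x ∈ U,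
      (∀ γ ∈ I, cob a₁ X.G ((q γ * x).re + p γ) = 0 ∨ cob a₁ X.G ((q γ * x).re + p γ) = -1) ∧
      (∀ γ ∈ I, ∀ u : ℤ, (q γ * x).re + p γ + u ∉ Ioo 0 X.ε') ∧
      ∑ γ ∈ I, wt γ * (cob a₁ X.G ((q γ * x).re + p γ) : ℝ) ≤
        -((X.g : ℝ) / (7 * X.P)) * ∑ γ ∈ I, wt γ := by
  classical
  have hPT := hX.PT
  have hP1 : 1 ≤ X.P := by omega
  have hK1 : 1 ≤ X.K := by omega
  have hKR : (1 : ℝ) ≤ X.K := by exact_mod_cast hK1
  have hK0 : (0 : ℝ) < X.K := by linarith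
  have hw := hX.wpos
  -- slopes are at most one
  have hle1 : ∀ γ ∈ I, |(q γ * τ).re| ≤ 1 := by
    intro γ hγ
    refine (Complex.abs_re_le_norm _).trans ?_
    rw [norm_mul, hq γ hγ, hτ, one_mul]
  -- classes
  set r : ι → ι → Prop := fun γ γ' => q γ = q γ' ∧
    ∃ (v : ℤ × ℤ) (u : ℤ), p γ - p γ' = Lf a₁ a₂ v + u with hr
  obtain ⟨R₀, hR₀I, hcov, hind⟩ := exists_reps r
    (fun x => ⟨rfl, 0, 0, by simp [Lf]⟩)
    (fun x y h => by
      obtain ⟨h0, v, u, h⟩ := h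
      refine ⟨h0.symm, -v, -u, ?_⟩
      simp only [Lf, Prod.fst_neg, Prod.snd_neg] at h ⊢
      push_cast
      linarith) I
  choose! rep hrep hrr using hcov
  have hq' : ∀ γ ∈ I, q γ = q (rep γ) := fun γ hγ => (hrr γ hγ).1
  have hvu : ∀ γ ∈ I, ∃ v : ℤ × ℤ, ∃ u : ℤ, p γ - p (rep γ) = Lf a₁ a₂ v + u :=
    fun γ hγ => (hrr γ hγ).2
  choose! v u huv using hvu
  have hv : ∀ γ ∈ I, |(v γ).1| ≤ 2 * X.P ∧ |(v γ).2| ≤ X.K := fun γ hγ =>
    hcl γ hγ (rep γ) (hR₀I (hrep γ hγ)) (hq' γ hγ) _ _ (huv γ hγ)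
  -- offsets
  have hoff : ∀ j, ∃ a₀ : ℤ, |a₀| ≤ 3 * X.P ∧
      (X.g : ℝ) / (7 * X.P) * ∑ γ ∈ I with rep γ = j, wt γ ≤
        ∑ γ ∈ I with rep γ = j, if 0 ≤ (v γ).1 - a₀ ∧ (v γ).1 - a₀ ≤ X.g then wt γ else 0 := by
    intro j
    exact exists_offset _ wt (fun γ hγ => hwt γ (Finset.mem_filter.1 hγ).1) (fun γ => (v γ).1)
      X.P X.g hP1 hX.gP (fun γ hγ => (hv γ (Finset.mem_filter.1 hγ).1).1)
  choose A hA hAs using hoff
  -- avoidance of the higher levels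
  set δ : ℝ := 1 / (64 * (X.K : ℝ) ^ 2 * 4 ^ X.K) with hδ
  have hδ0 : 0 < δ := by positivity
  obtain ⟨t₁, ht₁, ht₂, havoid⟩ := avoid_family I.card 1 one_pos
    (fun l => (q (I.equivFin.symm l) * τ).re) (fun l => p (I.equivFin.symm l))
    (fun l h => by
      have h1 := hqτ (I.equivFin.symm l) (I.equivFin.symm l).2
      rw [h, abs_zero] at h1
      have h2 : (0 : ℝ) < 1 / X.K := by positivity
      linarith)
    0 (1 / (4 * X.K)) (by positivity)
    (fun l => by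
      have h1 := hle1 (I.equivFin.symm l) (I.equivFin.symm l).2
      have h2 : 1 / (4 * (X.K : ℝ)) ≤ 1 := by
        rw [div_le_one (by positivity)]
        linarith
      have h3 : (0 : ℝ) < 1 / (4 * X.K) := by positivity
      have h4 : (0 : ℝ) ≤ |(q (I.equivFin.symm l) * τ).re| := abs_nonneg _
      calc 1 * |(q (I.equivFin.symm l) * τ).re| * (1 / (4 * (X.K : ℝ)))
          ≤ 1 * 1 * 1 := by gcongr
        _ = 1 := by norm_num)
  have h4K : (4 : ℝ) ^ I.card ≤ 4 ^ X.K := pow_le_pow_right₀ (by norm_num) hI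
  have h4p : (0 : ℝ) < 4 ^ I.card := by positivity
  have hlen : δ ≤ 1 / (4 * (X.K : ℝ)) / 4 ^ I.card := by
    rw [hδ, div_div]
    apply one_div_le_one_div_of_le (by positivity)
    have h1 : 4 * (X.K : ℝ) ≤ 64 * (X.K : ℝ) ^ 2 := by nlinarith
    exact mul_le_mul h1 h4K h4p.le (by positivity)
  have hav : ∀ γ ∈ I, ∀ t ∈ Icc t₁ (t₁ + 1 / (4 * (X.K : ℝ)) / 4 ^ I.card), ∀ u : ℤ,
      2 * δ ≤ |(q γ * τ).re * t + p γ - u| := by
    intro γ hγ t ht u
    have h1 := havoid (I.equivFin ⟨γ, hγ⟩) t ht u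
    simp only [Equiv.symm_apply_apply, one_mul] at h1
    refine le_trans ?_ h1
    have h2 := hqτ γ hγ
    have h3 : 2 * δ = 1 / X.K * (1 / (4 * (X.K : ℝ))) / (8 * 4 ^ X.K) := by
      rw [hδ]
      field_simp
      norm_num
    rw [h3]
    gcongr
    done
  -- the seeds
  obtain ⟨t, ht, htZ⟩ := hX.univ R₀.card ((Finset.card_le_card hR₀I).trans hI)
    (fun l => (q (R₀.equivFin.symm l) * τ).re)
    (fun l => p (R₀.equivFin.symm l) + A (R₀.equivFin.symm l) * a₁)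
    (fun l => ⟨hqτ _ (hR₀I (R₀.equivFin.symm l).2), hle1 _ (hR₀I (R₀.equivFin.symm l).2)⟩)
    (fun l l' hll hs v u h => by
      have h1 : q (R₀.equivFin.symm l) = q (R₀.equivFin.symm l') :=
        hinj _ (hR₀I (R₀.equivFin.symm l).2) _ (hR₀I (R₀.equivFin.symm l').2) hs
      refine hind _ (R₀.equivFin.symm l).2 _ (R₀.equivFin.symm l').2 ?_ ⟨h1,
        v + ((A (R₀.equivFin.symm l') - A (R₀.equivFin.symm l)), 0), u, ?_⟩
      · intro h2
        exact hll (R₀.equivFin.symm.injective (Subtype.ext h2))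
      · simp only [Lf, Prod.fst_add, Prod.snd_add] at h ⊢
        push_cast
        linarith)
    t₁
  have htZ' : ∀ j ∈ R₀, (q j * (t * τ)).re + (p j + A j * a₁) ∈ X.Z := by
    intro j hj
    have h1 := htZ (R₀.equivFin ⟨j, hj⟩)
    simp only [Equiv.symm_apply_apply] at h1
    have h2 : (q j * (t * τ)).re = (q j * τ).re * t := by
      have : q j * (t * τ) = (t : ℂ) * (q j * τ) := by ring
      rw [this, Complex.re_ofReal_mul]
      ring
    rw [h2]
    exact h1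
  have htlt : t < 1 / (4 * X.K) := by
    have h1 := ht.2
    have h2 := hlen
    linarith
  have ht0 : 0 < t := by
    have := ht.1
    linarith
  have hKw : 1 / (4 * (X.K : ℝ)) ≤ X.w / 4 := by
    rw [div_le_div_iff₀ (by positivity) (by norm_num)]
    linarith
  refine ⟨(Metric.ball ((t : ℂ) * τ) δ ∩ Metric.ball 0 (X.w / 4)) ∩
    ⋂ j ∈ R₀, {x | (q j * x).re + (p j + A j * a₁) ∈ X.Z}, ?_, ⟨t * τ, ⟨?_, ?_⟩, ?_⟩, ?_, ?_⟩
  · refine (Metric.isOpen_ball.inter Metric.isOpen_ball).inter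
      (isOpen_biInter_finset fun j _ => ?_)
    refine hX.Zopen.preimage ?_
    have : Continuous fun x : ℂ => (q j * x).re :=
      Complex.continuous_re.comp (continuous_const.mul continuous_id)
    exact this.add continuous_const
  · exact Metric.mem_ball_self hδ0
  · rw [Metric.mem_ball, dist_zero_right, norm_mul, hτ, mul_one, Complex.norm_real,
      Real.norm_eq_abs, abs_of_pos ht0]
    linarith
  · rw [mem_iInter₂]
    exact htZ'
  · rintro x ⟨⟨-, hx⟩, -⟩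
    exact hx
  · rintro x ⟨⟨hx1, hx2⟩, hx3⟩
    rw [mem_iInter₂] at hx3
    rw [Metric.mem_ball, dist_eq_norm] at hx1
    rw [Metric.mem_ball, dist_zero_right] at hx2
    -- the value at a point of the configuration
    have hpos : ∀ γ ∈ I, (q γ * x).re + p γ =
        ((q (rep γ) * x).re + (p (rep γ) + A (rep γ) * a₁)) +
          Lf a₁ a₂ ((v γ).1 - A (rep γ), (v γ).2) + (u γ : ℤ) := by
      intro γ hγ
      have h1 := huv γ hγ
      rw [← hq' γ hγ]
      simp only [Lf] at h1 ⊢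
      push_cast
      linarith
    have habs : ∀ γ ∈ I, |(v γ).1 - A (rep γ)| ≤ X.K := by
      intro γ hγ
      have h1 := abs_le.1 (hv γ hγ).1
      have h2 := abs_le.1 (hA (rep γ))
      have h3 : (5 * X.P : ℤ) ≤ X.K := by exact_mod_cast hK5
      rw [abs_le]
      constructor <;> linarith
    have hval : ∀ γ ∈ I, cob a₁ X.G ((q γ * x).re + p γ) = 0 ∨
        cob a₁ X.G ((q γ * x).re + p γ) = -1 := by
      intro γ hγ
      obtain ⟨a₀, h0, h1, h2⟩ := hX.pattern _ (hx3 (rep γ) (hrep γ hγ)) (v γ).2 (hv γ hγ).2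
      rw [hpos γ hγ, cob_int hX.Gper, h2 _ (habs γ hγ)]
      split_ifs
      · right; rfl
      · left; rfl
    refine ⟨hval, ?_, ?_⟩
    · intro γ hγ u' hu'
      have h1 := hav γ hγ t ⟨ht.1.le, by linarith [ht.2]⟩ (-u')
      have h2 : |(q γ * x).re - (q γ * τ).re * t| < δ := by
        have h3 : (q γ * x).re - (q γ * τ).re * t = (q γ * (x - t * τ)).re := by
          have h4 : q γ * (x - t * τ) = q γ * x - (t : ℂ) * (q γ * τ) := by ring
          rw [h4, Complex.sub_re, Complex.re_ofReal_mul]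
          ring
        rw [h3]
        refine (Complex.abs_re_le_norm _).trans_lt ?_
        rw [norm_mul, hq γ hγ, one_mul]
        exact hx1
      have h3 : X.ε' ≤ δ := hX.ε'e.trans he
      have h4 : |(q γ * x).re + p γ + u'| < δ := by
        rw [abs_of_pos hu'.1]
        exact hu'.2.trans_le h3
      have h5 : (q γ * τ).re * t + p γ - ((-u' : ℤ) : ℝ) =
          ((q γ * x).re + p γ + u') - ((q γ * x).re - (q γ * τ).re * t) := by
        push_cast
        ring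
      rw [h5] at h1
      have h6 := abs_sub ((q γ * x).re + p γ + u') ((q γ * x).re - (q γ * τ).re * t)
      linarith
    · -- the weighted sum
      have hmap : ∀ γ ∈ I, rep γ ∈ R₀ := hrep
      rw [← Finset.sum_fiberwise_of_maps_to hmap, ← Finset.sum_fiberwise_of_maps_to hmap wt,
        Finset.mul_sum]
      refine Finset.sum_le_sum fun j hj => ?_
      rw [neg_mul, le_neg, ← Finset.sum_neg_distrib]
      refine (hAs j).trans (Finset.sum_le_sum fun γ hγ => ?_)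
      obtain ⟨hγI, rfl⟩ := Finset.mem_filter.1 hγ
      by_cases hc : 0 ≤ (v γ).1 - A (rep γ) ∧ (v γ).1 - A (rep γ) ≤ X.g
      · rw [if_pos hc]
        by_cases h0 : wt γ = 0
        · rw [h0]
          simp
        · obtain ⟨u', hu'⟩ := hsm γ hγI h0
          have h1 : cob a₁ X.G ((q γ * x).re + p γ) = -1 := by
            rw [hpos γ hγI, cob_int hX.Gper]
            refine hX.small _ (hx3 (rep γ) hj) (v γ).2 (hv γ hγI).2 _ hc.1 hc.2 ⟨u γ + u', ?_⟩
            have h2 : ((q (rep γ) * x).re + (p (rep γ) + A (rep γ) * a₁)) +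
                Lf a₁ a₂ ((v γ).1 - A (rep γ), (v γ).2) + ((u γ + u' : ℤ) : ℝ) =
                (q γ * x).re + (p γ + u') := by
              have := hpos γ hγI
              push_cast at this ⊢
              linarith
            rw [h2]
            have h3 : |(q γ * x).re| < X.w / 4 := by
              refine (Complex.abs_re_le_norm _).trans_lt ?_
              rw [norm_mul, hq γ hγI, one_mul]
              exact hx2
            rw [abs_lt] at h3
            constructor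
            · linarith [hu'.1, h3.1]
            · linarith [hu'.2, h3.2]
          rw [h1]
          push_cast
          linarith
      · rw [if_neg hc]
        rcases hval γ hγI with h | h
        · rw [h]; simp
        · rw [h]
          push_cast
          linarith [hwt γ hγI]

end GB
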